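import Mathlib

/-!
# A bipartite graph with a red/blue edge colouring without an alternating path covering `A`

The condition `|N^{RB}(X)| ≥ |X| - 1` for all `X ⊆ A` does not imply the existence of an
alternating path covering `A`.  The graph has `|A| = 4` and `|B| = 3`.
-/

set_option autoImplicit false

namespace Pool.Agent.Results.MP_9cf868_co.NoAlternatingPath

/-- `NRB G red X` is the set of all vertices joined to some vertex of `X` by a red edge and also
joined to some vertex of `X` by a blue edge (an edge is blue when it is not red). -/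
def NRB {V : Type} (G : SimpleGraph V) (red : Sym2 V → Prop) (X : Set V) : Set V :=
  {v | (∃ x ∈ X, G.Adj x v ∧ red s(x, v)) ∧ (∃ y ∈ X, G.Adj y v ∧ ¬ red s(y, v))}

/-- A walk is alternating if any two consecutive edges have different colours. -/
def Alternating {V : Type} {G : SimpleGraph V} (red : Sym2 V → Prop) {u v : V}
    (p : G.Walk u v) : Prop :=
  p.edges.IsChain (fun e f => ¬ (red e ↔ red f))

/-- The red edges of the example. -/
def redB (x y : Fin 7) : Bool :=
  match x.val, y.val with
  | 1, 4 => true | 3, 4 => true | 0, 5 => true | 0, 6 => true | 1, 6 => true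
  | 4, 1 => true | 4, 3 => true | 5, 0 => true | 6, 0 => true | 6, 1 => true
  | _, _ => false

/-- The blue edges of the example. -/
def blueB (x y : Fin 7) : Bool :=
  match x.val, y.val with
  | 0, 4 => true | 2, 4 => true | 3, 5 => true | 2, 6 => true | 3, 6 => true
  | 4, 0 => true | 4, 2 => true | 5, 3 => true | 6, 2 => true | 6, 3 => true
  | _, _ => false

theorem redB_symm : ∀ x y : Fin 7, redB x y = redB y x := by decide

theorem blueB_symm : ∀ x y : Fin 7, blueB x y = blueB y x := by decide

/-- The example. -/
def G7 : SimpleGraph (Fin 7) where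
  Adj x y := (redB x y || blueB x y) = true
  symm := ⟨by decide⟩
  loopless := ⟨by decide⟩

instance : DecidableRel G7.Adj := fun x y => inferInstanceAs (Decidable ((_ || _) = true))

/-- The red edges of the example, as a property of unordered pairs. -/
def red7 (e : Sym2 (Fin 7)) : Prop :=
  Sym2.lift ⟨fun x y => redB x y = true, fun x y => congrArg (· = true) (redB_symm x y)⟩ e

theorem red7_mk (x y : Fin 7) : red7 s(x, y) ↔ redB x y = true := Iff.rfl

/-- All ways to extend a vertex list at its head to a longer alternating path. -/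
def ext (l : List (Fin 7)) : List (List (Fin 7)) :=
  match l with
  | [] => []
  | [a] => ((List.finRange 7).filter
      (fun x => (redB x a || blueB x a) && !(x == a))).map (fun x => [x, a])
  | a :: b :: t => ((List.finRange 7).filter
      (fun x => (redB x a || blueB x a) && !((a :: b :: t).contains x) &&
        (redB x a != redB a b))).map (fun x => x :: a :: b :: t)

/-- All vertex lists of alternating paths with `k` edges. -/
def level : ℕ → List (List (Fin 7))
  | 0 => (List.finRange 7).map (fun x => [x])
  | (k + 1) => (level k).flatMap ext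

theorem mem_level {u v : Fin 7} (p : G7.Walk u v) (hp : p.IsPath)
    (ha : Alternating red7 p) : p.support ∈ level p.length := by
  induction p with
  | nil => simp [level]
  | @cons x y z h p ih =>
    have hp' : p.IsPath := hp.of_cons
    have hnot : x ∉ p.support := by
      rw [SimpleGraph.Walk.cons_isPath_iff] at hp
      exact hp.2
    have ha' : Alternating red7 p := by
      unfold Alternating at ha ⊢
      rw [SimpleGraph.Walk.edges_cons] at ha
      exact ha.tail
    have ih' := ih hp' ha'
    rw [SimpleGraph.Walk.support_cons, SimpleGraph.Walk.length_cons, level]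
    rw [List.mem_flatMap]
    refine ⟨p.support, ih', ?_⟩
    have hadj : (redB x y || blueB x y) = true := h
    cases p with
    | nil =>
      simp only [SimpleGraph.Walk.support_nil, List.mem_singleton] at hnot
      simp only [SimpleGraph.Walk.support_nil, ext, List.mem_map, List.mem_filter,
        List.mem_finRange, true_and]
      exact ⟨x, by simp [hadj, hnot], rfl⟩
    | @cons _ w _ h2 q =>
      unfold Alternating at ha
      rw [SimpleGraph.Walk.edges_cons, SimpleGraph.Walk.edges_cons] at ha
      have hne : ¬ (red7 s(x, y) ↔ red7 s(y, w)) := by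
        have := List.isChain_cons_cons.mp ha
        exact this.1
      rw [red7_mk, red7_mk] at hne
      have hq : ∃ t, q.support = w :: t := ⟨q.support.tail, by simp⟩
      obtain ⟨t, ht⟩ := hq
      rw [SimpleGraph.Walk.support_cons, ht] at hnot ⊢
      simp only [ext, List.mem_map, List.mem_filter, List.mem_finRange, true_and]
      refine ⟨x, ?_, rfl⟩
      have h3 : (redB x y != redB y w) = true := by
        revert hne
        cases redB x y <;> cases redB y w <;> simp
      have h4 : ((y :: w :: t).contains x) = false := by
        rw [Bool.eq_false_iff]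
        intro hc
        exact hnot (by simpa using hc)
      rw [hadj, h3, h4]
      rfl

/-- No alternating path of the example covers `{0, 1, 2, 3}` (finite check). -/
theorem level_check : ∀ k < 7, ∀ l ∈ level k,
    ¬ ((0 : Fin 7) ∈ l ∧ (1 : Fin 7) ∈ l ∧ (2 : Fin 7) ∈ l ∧ (3 : Fin 7) ∈ l) := by
  have h : ∀ k : Fin 7, (level k.val).all (fun l => !(l.contains (0 : Fin 7) &&
      l.contains (1 : Fin 7) && l.contains (2 : Fin 7) && l.contains (3 : Fin 7))) = true := by
    decide +kernel
  intro k hk l hl hc
  have h1 := List.all_eq_true.mp (h ⟨k, hk⟩) l hl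
  obtain ⟨h2, h3, h4, h5⟩ := hc
  simp [h2, h3, h4, h5] at h1

/-- The vertices of `NRB` for the example as a finset, by computation. -/
def nrbF (X : Finset (Fin 7)) : Finset (Fin 7) :=
  Finset.univ.filter (fun v => (∃ x ∈ X, redB x v = true) ∧ (∃ y ∈ X, blueB y v = true))

theorem nrb_check : ∀ X : Finset (Fin 7), X ⊆ {0, 1, 2, 3} → X.card ≤ (nrbF X).card + 1 := by
  decide +kernel

theorem red_blue : ∀ x y, ¬ (redB x y = true ∧ blueB x y = true) := by decide

theorem nrb_eq (X : Finset (Fin 7)) : NRB G7 red7 (X : Set (Fin 7)) = (nrbF X : Set (Fin 7)) := by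
  ext v
  simp only [NRB, nrbF, Set.mem_ofPred_eq, Finset.mem_coe, Finset.mem_filter, Finset.mem_univ,
    true_and, red7_mk]
  constructor
  · rintro ⟨⟨x, hx, -, h1⟩, ⟨y, hy, h2, h3⟩⟩
    refine ⟨⟨x, hx, h1⟩, ⟨y, hy, ?_⟩⟩
    have h2' : (redB y v || blueB y v) = true := h2
    rcases Bool.or_eq_true _ _ ▸ h2' with h | h
    · exact absurd h h3
    · exact h
  · rintro ⟨⟨x, hx, h1⟩, ⟨y, hy, h2⟩⟩
    refine ⟨⟨x, hx, ?_, h1⟩, ⟨y, hy, ?_, ?_⟩⟩
    · change (redB x v || blueB x v) = true
      rw [h1]; rfl
    · change (redB y v || blueB y v) = true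
      rw [h2]; simp
    · intro h3
      exact red_blue y v ⟨h3, h2⟩

/-- There is a finite bipartite graph with parts `A` (four vertices) and `B` (three vertices) and a
red/blue colouring of its edges such that `|N^{RB}(X)| ≥ |X| - 1` for every `X ⊆ A`, but no
alternating path contains all vertices of `A`. -/
theorem result :
    ∃ (V : Type) (_ : Fintype V) (G : SimpleGraph V) (A B : Set V) (red : Sym2 V → Prop),
      G.IsBipartiteWith A B ∧ A ∪ B = Set.univ ∧ A.ncard = 4 ∧ B.ncard = 3 ∧
      (∀ X : Set V, X ⊆ A → X.ncard ≤ (NRB G red X).ncard + 1) ∧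
      ∀ (u v : V) (p : G.Walk u v), p.IsPath → Alternating red p → ∃ a ∈ A, a ∉ p.support := by
  refine ⟨Fin 7, inferInstance, G7, (({0, 1, 2, 3} : Finset (Fin 7)) : Set (Fin 7)),
    (({4, 5, 6} : Finset (Fin 7)) : Set (Fin 7)), red7, ⟨?_, ?_⟩, ?_, ?_, ?_, ?_, ?_⟩
  · rw [Finset.disjoint_coe]
    decide
  · simp only [Finset.mem_coe]
    decide
  · rw [← Finset.coe_union, Finset.coe_eq_univ]
    decide
  · rw [Set.ncard_coe_finset]
    decide
  · rw [Set.ncard_coe_finset]
    decide
  · intro X hX
    classical
    have hfin : X = ((X.toFinite.toFinset : Finset (Fin 7)) : Set (Fin 7)) :=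
      (Set.Finite.coe_toFinset X.toFinite).symm
    rw [hfin, nrb_eq, Set.ncard_coe_finset, Set.ncard_coe_finset]
    apply nrb_check
    rw [← Finset.coe_subset, ← hfin]
    exact hX
  · intro u v p hp ha
    have h1 := mem_level p hp ha
    have h2 : p.length < 7 := by
      have := hp.length_lt
      simpa using this
    have h3 := level_check p.length h2 p.support h1
    by_contra hcon
    push Not at hcon
    apply h3
    refine ⟨hcon 0 ?_, hcon 1 ?_, hcon 2 ?_, hcon 3 ?_⟩ <;> simp

end Pool.Agent.Results.MP_9cf868_co.NoAlternatingPath
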